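import Pool.Agent.Lib_helper89.Corson.Small

/-!
# Non reflecting stationary sets give counterexamples (MP_1c9258_gt)
-/

namespace Pool.Agent.Lib_helper89.Corson

open Set Order Cardinal Filter Topology

variable {α : Type} [LinearOrder α] [WellFoundedLT α]

theorem thin_of_cof_aleph0 {S : Set α} {L : α → ℕ → α} (hL : IsLadder S L) {β : α}
    (hβ : cof (Iio β) = ℵ₀) : Thin S β := by
  obtain ⟨f, hmono, hlt, hcof⟩ := exists_ladder hβ
  have hs : ∀ n, ∃ s, f n < s ∧ ∀ y, f n < y → s ≤ y := by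
    intro n
    obtain ⟨y, hy, hy'⟩ := WellFounded.has_min (wellFounded_lt (α := α)) (Ioi (f n)) ⟨β, hlt n⟩
    exact ⟨y, hy, fun z hz => not_lt.1 (hy' z hz)⟩
  choose s hs1 hs2 using hs
  refine ⟨range s, ?_, ?_, ?_, ?_⟩
  · rintro _ ⟨n, rfl⟩
    exact (hs2 n _ (hmono (Nat.lt_succ_self n))).trans_lt (hlt _)
  · intro x hx
    obtain ⟨n, hn⟩ := hcof x hx
    exact ⟨s n, mem_range_self n, hn.trans (hs1 n)⟩
  · rw [Set.disjoint_left]
    rintro _ ⟨n, rfl⟩ hS
    obtain ⟨m, hm⟩ := (hL _ hS).2.2 (f n) (hs1 n)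
    exact absurd ((hL _ hS).2.1 m) (not_lt.2 (hs2 n _ hm))
  · intro x hx hne y hy
    have hfin : (range s ∩ Iio x).Finite := by
      obtain ⟨m, hm⟩ := hcof x hx
      refine ((finite_lt_nat m).image s).subset ?_
      rintro _ ⟨⟨n, rfl⟩, hn⟩
      refine ⟨n, ?_, rfl⟩
      have h1 : f n < f m := (hs1 n).trans (lt_trans hn hm)
      exact hmono.lt_iff_lt.1 h1
    obtain ⟨b, hb, hb'⟩ := hfin.exists_maximal hne
    have h1 : y = b := by
      refine le_antisymm (hy.2 fun c hc => ?_) (hy.1 hb)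
      rcases le_total c b with h | h
      · exact h
      · exact hb' hc h
    rw [h1]
    exact hb.1

omit [WellFoundedLT α] in
theorem thin_of_not_stationary {S : Set α} {β : α}
    (hβ : ¬ IsStationary (Subtype.val ⁻¹' S : Set (Iio β)))
    (hlim : ∀ x < β, ∃ y < β, x < y) : Thin S β := by
  rw [not_isStationary_iff] at hβ
  obtain ⟨t, ht, hdis⟩ := hβ
  refine ⟨Subtype.val '' t, ?_, ?_, ?_, ?_⟩
  · rintro _ ⟨c, _, rfl⟩
    exact c.2
  · intro x hx
    obtain ⟨y, hy, hxy⟩ := hlim x hx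
    obtain ⟨c, hc, hyc⟩ := ht.isCofinal ⟨y, hy⟩
    exact ⟨c, ⟨c, hc, rfl⟩, hxy.trans_le hyc⟩
  · rw [Set.disjoint_left]
    rintro _ ⟨c, hc, rfl⟩ hS
    exact (Set.disjoint_left.1 hdis) hS hc
  · intro x hx hne y hy
    have hyx : y ≤ x := hy.2 fun c hc => hc.2.le
    have hyβ : y < β := hyx.trans_lt hx
    refine ⟨⟨y, hyβ⟩, ?_, rfl⟩
    refine ht.dirSupClosed (d := {c | c ∈ t ∧ (c : α) < x}) (fun c hc => hc.1) ?_ ?_ ?_
    · obtain ⟨_, ⟨c, hc, rfl⟩, hcx⟩ := hne
      exact ⟨c, hc, hcx⟩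
    · intro a ha b hb
      rcases le_total a b with h | h
      · exact ⟨b, hb, h, le_rfl⟩
      · exact ⟨a, ha, le_rfl, h⟩
    · constructor
      · intro c hc
        exact hy.1 ⟨⟨c, hc.1, rfl⟩, hc.2⟩
      · intro b hb
        refine hy.2 ?_
        rintro _ ⟨⟨c, hc, rfl⟩, hcx⟩
        exact hb (a := c) ⟨hc, hcx⟩

theorem mk_X [IsRegularCardinalOrder α] (D : Data α) (hα : ℵ₀ < #α) : #D.X = #α := by
  refine le_antisymm ?_ ?_
  · let j : D.X → Option (α ⊕ α) := fun x => match x with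
      | Pt.inf => none
      | Pt.iso ξ => some (Sum.inl ξ)
      | Pt.lim δ => some (Sum.inr δ)
    have hj : Function.Injective j := by
      rintro (_ | ξ | δ) (_ | η | γ) h <;> simp_all [j]
      rw [Subtype.ext h]
    refine (Cardinal.mk_le_of_injective hj).trans ?_
    rw [Cardinal.mk_option, Cardinal.mk_sum]
    simp only [Cardinal.lift_id]
    rw [Cardinal.add_eq_self hα.le, Cardinal.add_one_eq hα.le]
  · refine Cardinal.mk_le_of_injective (f := D.iso) ?_
    intro ξ η h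
    have h1 := (e_iso_inl D ξ ξ).2 rfl
    rw [h] at h1
    exact (e_iso_inl D η ξ).1 h1

/-- A non reflecting stationary set of `ω`-cofinal points gives a compact space which is not
Corson although the closures of its small subsets are. -/
theorem counterexample [IsRegularCardinalOrder α] (hα : ℵ₀ < #α) {S : Set α}
    (hS : IsStationary S) (hcof : ∀ δ ∈ S, cof (Iio δ) = ℵ₀)
    (hnr : ∀ β : α, ℵ₀ < cof (Iio β) → ¬ IsStationary (Subtype.val ⁻¹' S : Set (Iio β))) :
    ∃ (X : Type) (_ : TopologicalSpace X), CompactSpace X ∧ T2Space X ∧ #X = #α ∧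
      (∀ A : Set X, #A < #α → TwoSupp (closure A)) ∧
      ¬ ∃ (Γ : Type) (f : X → (Γ → ℝ)),
        Topology.IsEmbedding f ∧ ∀ x, (Function.support (f x)).Countable := by
  classical
  have hlad : ∀ δ : α, ∃ f : ℕ → α, δ ∈ S →
      StrictMono f ∧ (∀ n, f n < δ) ∧ ∀ x < δ, ∃ n, x < f n := by
    intro δ
    by_cases h : δ ∈ S
    · obtain ⟨f, hf⟩ := exists_ladder (hcof δ h)
      exact ⟨f, fun _ => hf⟩
    · exact ⟨fun _ => δ, fun h' => absurd h' h⟩
  choose L hL using hlad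
  let D : Data α := ⟨S, L, fun δ hδ => hL δ hδ⟩
  have hfree : ∀ β, Free D.L (D.S ∩ Iio β) := by
    refine free_of_thin D.isLadder fun β hlim hne => ?_
    have h0 : Nonempty (Iio β) := hne.to_subtype
    have h1 : NoMaxOrder (Iio β) := ⟨fun x => by
      obtain ⟨y, hy, hxy⟩ := hlim x x.2
      exact ⟨⟨y, hy⟩, hxy⟩⟩
    have h2 : ℵ₀ ≤ cof (Iio β) := aleph0_le_cof
    rcases h2.eq_or_lt with h3 | h3
    · exact thin_of_cof_aleph0 D.isLadder h3.symm
    · exact thin_of_not_stationary (hnr β h3) hlim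
  exact ⟨D.X, inferInstance, inferInstance, inferInstance, mk_X D hα,
    fun A hA => twoSupp_closure D hα hfree A hA, not_corson D hα hS⟩

end Pool.Agent.Lib_helper89.Corson
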