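import Pool.Agent.Lib_helper89.Corson.Fodor

/-!
# Closures of small subsets of the ladder system compactum (MP_1c9258_gt)
-/

namespace Pool.Agent.Lib_helper89.Corson

open Set Order Cardinal Filter Topology

/-- A compact space is a uniform Eberlein compactum of the simplest kind: it embeds in a product
of copies of `ℝ` with all coordinates `0` or `1` and at most two of them nonzero. -/
def TwoSupp (Y : Type) [TopologicalSpace Y] : Prop :=
  ∃ (Γ : Type) (f : Y → (Γ → ℝ)), Topology.IsEmbedding f ∧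
    ∀ y, (∀ γ, f y γ = 0 ∨ f y γ = 1) ∧ (Function.support (f y)).encard ≤ 2

theorem TwoSupp.corson {Y : Type} [TopologicalSpace Y] (h : TwoSupp Y) :
    ∃ (Γ : Type) (f : Y → (Γ → ℝ)), Topology.IsEmbedding f ∧
      ∀ y, (Function.support (f y)).Countable := by
  obtain ⟨Γ, f, hf, hs⟩ := h
  refine ⟨Γ, f, hf, fun y => ?_⟩
  refine (Set.finite_of_encard_le_coe (k := 2) ?_).countable
  exact_mod_cast (hs y).2

variable {α : Type} [LinearOrder α]

/-- Position of a point. -/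
def Data.rk (D : Data α) (a₀ : α) : D.X → α
  | Pt.inf => a₀
  | Pt.iso ξ => ξ
  | Pt.lim δ => δ

theorem not_mem_closure_iso (D : Data α) {A : Set D.X} {ξ : α} (h : D.iso ξ ∉ A) :
    D.iso ξ ∉ closure A := by
  intro hc
  rw [mem_closure_iff] at hc
  obtain ⟨x, hx, hxA⟩ := hc _ (isClopen_e D (Sum.inl ξ)).2 ((e_iso_inl D ξ ξ).2 rfl)
  rcases Data.cases x with rfl | ⟨η, rfl⟩ | ⟨δ, rfl⟩
  · simp at hx
  · have : ξ = η := (e_iso_inl D η ξ).1 hx
    rw [this] at h
    exact h hxA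
  · simp at hx

theorem isClopen_tail (D : Data α) (δ : D.S) {b : α} (hb : b < δ) :
    IsClopen {x : D.X | D.e x (Sum.inr δ) = true ∧
      ∀ ξ ∈ range (D.L δ) ∩ Iic b, D.e x (Sum.inl ξ) = false} := by
  have h1 : {x : D.X | D.e x (Sum.inr δ) = true ∧
      ∀ ξ ∈ range (D.L δ) ∩ Iic b, D.e x (Sum.inl ξ) = false} =
      {x | D.e x (Sum.inr δ) = true} ∩
        ⋂ ξ ∈ range (D.L δ) ∩ Iic b, {x | D.e x (Sum.inl ξ) = true}ᶜ := by
    ext x
    simp only [Set.mem_ofPred_eq, mem_inter_iff, mem_iInter, mem_compl_iff, Bool.not_eq_true]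
  rw [h1]
  exact (isClopen_e D _).inter ((ladder_finite D.isLadder δ.2 hb).isClopen_biInter
    fun ξ _ => (isClopen_e D _).compl)

theorem not_mem_closure_lim (D : Data α) (a₀ : α) {A : Set D.X} {β : α}
    (hA : ∀ x ∈ A, D.rk a₀ x < β) {δ : D.S} (hδ : β < δ) : D.lim δ ∉ closure A := by
  intro hc
  rw [mem_closure_iff] at hc
  obtain ⟨x, hx, hxA⟩ := hc _ (isClopen_tail D δ hδ).2
    ⟨(e_lim_inr D δ δ).2 rfl, fun ξ _ => rfl⟩
  rcases Data.cases x with rfl | ⟨η, rfl⟩ | ⟨γ, rfl⟩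
  · simp at hx
  · have h1 : η < β := hA _ hxA
    have h2 := hx.2 η ⟨(e_iso_inr D η δ).1 hx.1, h1.le⟩
    rw [(e_iso_inl D η η).2 rfl] at h2
    simp at h2
  · have h1 : (γ : α) < β := hA _ hxA
    have h2 : δ = γ := (e_lim_inr D γ δ).1 hx.1
    rw [h2] at hδ
    exact lt_asymm h1 hδ

open scoped Classical in
/-- The coordinates of the embedding. -/
noncomputable def Data.h (D : Data α) (g : α → α) (β₂ : α) (x : D.X) : α ⊕ D.S → ℝ
  | Sum.inl η => if D.e x (Sum.inl η) = true then 1 else 0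
  | Sum.inr δ => if (δ : α) < β₂ ∧ (D.e x (Sum.inr δ) = true ∧
      ∀ ξ ∈ range (D.L δ) ∩ Iic (g δ), D.e x (Sum.inl ξ) = false) then 1 else 0

theorem continuous_ite_clopen {X : Type} [TopologicalSpace X] {p : X → Prop} [DecidablePred p]
    (hp : IsClopen {x | p x}) : Continuous fun x => if p x then (1 : ℝ) else 0 := by
  refine IsLocallyConstant.continuous ?_
  rw [IsLocallyConstant.iff_eventually_eq]
  intro x
  by_cases hx : p x
  · filter_upwards [hp.2.mem_nhds hx] with y hy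
    rw [if_pos hx, if_pos hy]
  · filter_upwards [hp.compl.2.mem_nhds hx] with y hy
    rw [if_neg hx, if_neg (show ¬ p y from hy)]

theorem continuous_h (D : Data α) {g : α → α} {β₂ : α}
    (hg : ∀ δ ∈ D.S ∩ Iio β₂, g δ < δ) : Continuous (D.h g β₂) := by
  classical
  refine continuous_pi fun i => ?_
  rcases i with η | δ
  · have := continuous_ite_clopen (isClopen_e D (Sum.inl η))
    exact this
  · by_cases hδ : (δ : α) < β₂
    · have h1 : {x : D.X | (δ : α) < β₂ ∧ (D.e x (Sum.inr δ) = true ∧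
          ∀ ξ ∈ range (D.L δ) ∩ Iic (g δ), D.e x (Sum.inl ξ) = false)} =
          {x : D.X | D.e x (Sum.inr δ) = true ∧
            ∀ ξ ∈ range (D.L δ) ∩ Iic (g δ), D.e x (Sum.inl ξ) = false} := by
        ext x
        simp only [Set.mem_ofPred_eq, hδ, true_and]
      have h2 : IsClopen {x : D.X | (δ : α) < β₂ ∧ (D.e x (Sum.inr δ) = true ∧
          ∀ ξ ∈ range (D.L δ) ∩ Iic (g δ), D.e x (Sum.inl ξ) = false)} := by
        rw [h1]
        exact isClopen_tail D δ (hg δ ⟨δ.2, hδ⟩)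
      have := continuous_ite_clopen h2
      exact this
    · have : (fun x => D.h g β₂ x (Sum.inr δ)) = fun _ => 0 := by
        funext x
        simp only [Data.h]
        rw [if_neg]
        exact fun h => hδ h.1
      rw [this]
      exact continuous_const

theorem h_iso_inl (D : Data α) (g : α → α) (β₂ ξ η : α) :
    D.h g β₂ (D.iso ξ) (Sum.inl η) ≠ 0 ↔ η = ξ := by
  classical
  simp only [Data.h, e_iso_inl]
  split_ifs with h <;> simp [h]

theorem h_lim_inl (D : Data α) (g : α → α) (β₂ η : α) (δ : D.S) :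
    D.h g β₂ (D.lim δ) (Sum.inl η) = 0 := by
  classical
  simp [Data.h]

theorem h_inf (D : Data α) (g : α → α) (β₂ : α) (i : α ⊕ D.S) :
    D.h g β₂ D.inf i = 0 := by
  classical
  rcases i with η | δ <;> simp [Data.h]

theorem h_lim_inr (D : Data α) (g : α → α) (β₂ : α) (δ γ : D.S) :
    D.h g β₂ (D.lim δ) (Sum.inr γ) ≠ 0 ↔ (γ : α) < β₂ ∧ γ = δ := by
  classical
  simp only [Data.h, e_lim_inr, e_lim_inl]
  split_ifs with h
  · simp only [ne_eq, one_ne_zero, not_false_eq_true, true_iff]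
    exact ⟨h.1, h.2.1⟩
  · simp only [ne_eq, not_true_eq_false, false_iff]
    intro h2
    exact h ⟨h2.1, h2.2, fun _ _ => trivial⟩

theorem h_iso_inr (D : Data α) (g : α → α) (β₂ ξ : α) (δ : D.S) :
    D.h g β₂ (D.iso ξ) (Sum.inr δ) ≠ 0 ↔ (δ : α) < β₂ ∧ ξ ∈ range (D.L δ) ∧ g δ < ξ := by
  classical
  simp only [Data.h, e_iso_inr]
  split_ifs with h
  · simp only [ne_eq, one_ne_zero, not_false_eq_true, true_iff]
    refine ⟨h.1, h.2.1, ?_⟩
    by_contra hcon
    have h2 := h.2.2 ξ ⟨h.2.1, not_lt.1 hcon⟩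
    rw [(e_iso_inl D ξ ξ).2 rfl] at h2
    simp at h2
  · simp only [ne_eq, not_true_eq_false, false_iff]
    rintro ⟨h1, h2, h3⟩
    refine h ⟨h1, h2, fun η hη => ?_⟩
    by_contra hcon
    rw [Bool.not_eq_false, e_iso_inl] at hcon
    rw [hcon] at hη
    exact absurd hη.2 (not_le.2 h3)

theorem h_values (D : Data α) (g : α → α) (β₂ : α) (x : D.X) (i : α ⊕ D.S) :
    D.h g β₂ x i = 0 ∨ D.h g β₂ x i = 1 := by
  classical
  rcases i with η | δ
  · simp only [Data.h]
    split_ifs <;> simp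
  · simp only [Data.h]
    split_ifs <;> simp

theorem h_support (D : Data α) {g : α → α} {β₂ : α}
    (hg : ∀ δ ∈ D.S ∩ Iio β₂, ∀ δ' ∈ D.S ∩ Iio β₂, δ < δ' →
      ∀ ξ ∈ range (D.L δ), ξ ∈ range (D.L δ') → g δ < ξ → g δ' < ξ → False) (x : D.X) :
    (Function.support (D.h g β₂ x)).encard ≤ 2 := by
  classical
  rcases Data.cases x with rfl | ⟨ξ, rfl⟩ | ⟨δ, rfl⟩
  · have : Function.support (D.h g β₂ D.inf) = ∅ := by
      ext i
      simp [h_inf]
    rw [this]
    simp
  · by_cases hex : ∃ δ : D.S, D.h g β₂ (D.iso ξ) (Sum.inr δ) ≠ 0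
    · obtain ⟨δ, hδ⟩ := hex
      refine le_trans (Set.encard_le_encard (t := {Sum.inl ξ, Sum.inr δ}) ?_) (by
        refine (Set.encard_insert_le _ _).trans ?_
        rw [Set.encard_singleton]
        norm_num)
      rintro (η | γ) hi
      · left
        rw [(h_iso_inl D g β₂ ξ η).1 hi]
      · right
        rw [mem_singleton_iff]
        have h1 := (h_iso_inr D g β₂ ξ γ).1 hi
        have h2 := (h_iso_inr D g β₂ ξ δ).1 hδ
        by_contra hne
        have hne' : (γ : α) ≠ δ := fun h => hne (by rw [Subtype.ext h])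
        rcases lt_or_gt_of_ne hne' with h | h
        · exact hg γ ⟨γ.2, h1.1⟩ δ ⟨δ.2, h2.1⟩ h ξ h1.2.1 h2.2.1 h1.2.2 h2.2.2
        · exact hg δ ⟨δ.2, h2.1⟩ γ ⟨γ.2, h1.1⟩ h ξ h2.2.1 h1.2.1 h2.2.2 h1.2.2
    · push Not at hex
      refine le_trans (Set.encard_le_encard (t := {Sum.inl ξ}) ?_) ?_
      · rintro (η | γ) hi
        · rw [(h_iso_inl D g β₂ ξ η).1 hi]
          rfl
        · exact absurd (hex γ) hi
      · rw [Set.encard_singleton]
        norm_num
  · refine le_trans (Set.encard_le_encard (t := {Sum.inr δ}) ?_) ?_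
    · rintro (η | γ) hi
      · exact absurd (h_lim_inl D g β₂ η δ) hi
      · rw [((h_lim_inr D g β₂ δ γ).1 hi).2]
        rfl
    · rw [Set.encard_singleton]
      norm_num

variable [WellFoundedLT α] [IsRegularCardinalOrder α]

theorem twoSupp_closure (D : Data α) (hα : ℵ₀ < #α) (hfree : ∀ β, Free D.L (D.S ∩ Iio β))
    (A : Set D.X) (hA : #A < #α) : TwoSupp (closure A) := by
  classical
  have hne : Nonempty α := by
    rw [← Cardinal.mk_ne_zero_iff]
    exact (Cardinal.aleph0_pos.trans hα).ne'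
  obtain ⟨a₀⟩ := hne
  obtain ⟨β, hβ⟩ := bdd_of_card (s := D.rk a₀ '' A) (Cardinal.mk_image_le.trans_lt hA)
  have hβ' : ∀ x ∈ A, D.rk a₀ x < β := fun x hx => hβ _ (mem_image_of_mem _ hx)
  obtain ⟨β₂, hβ₂⟩ := bdd_of_card (s := ({β} : Set α)) (by
    rw [Cardinal.mk_singleton]
    exact one_lt_aleph0.trans hα)
  have hββ₂ : β < β₂ := hβ₂ β rfl
  obtain ⟨g, hg1, hg2⟩ := hfree β₂
  have hcont : Continuous fun x : closure A => D.h g β₂ x :=
    (continuous_h D hg1).comp continuous_subtype_val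
  have hlim : ∀ δ : D.S, D.lim δ ∈ closure A → (δ : α) < β₂ := by
    intro δ hδ
    refine lt_of_le_of_lt ?_ hββ₂
    by_contra hcon
    exact not_mem_closure_lim D a₀ hβ' (not_le.1 hcon) hδ
  have hinj : Function.Injective fun x : closure A => D.h g β₂ x := by
    rintro ⟨x, hx⟩ ⟨y, hy⟩ hxy
    have hxy' : ∀ i, D.h g β₂ x i = D.h g β₂ y i := fun i => congrFun hxy i
    refine Subtype.ext ?_
    show x = y
    rcases Data.cases x with rfl | ⟨ξ, rfl⟩ | ⟨δ, rfl⟩ <;>
      rcases Data.cases y with rfl | ⟨η, rfl⟩ | ⟨γ, rfl⟩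
    · rfl
    · have h1 := (h_iso_inl D g β₂ η η).2 rfl
      rw [← hxy', h_inf] at h1
      exact absurd rfl h1
    · have h1 := (h_lim_inr D g β₂ γ γ).2 ⟨hlim γ hy, rfl⟩
      rw [← hxy', h_inf] at h1
      exact absurd rfl h1
    · have h1 := (h_iso_inl D g β₂ ξ ξ).2 rfl
      rw [hxy', h_inf] at h1
      exact absurd rfl h1
    · have h1 := (h_iso_inl D g β₂ ξ ξ).2 rfl
      rw [hxy'] at h1
      rw [(h_iso_inl D g β₂ η ξ).1 h1]
    · have h1 := (h_iso_inl D g β₂ ξ ξ).2 rfl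
      rw [hxy', h_lim_inl] at h1
      exact absurd rfl h1
    · have h1 := (h_lim_inr D g β₂ δ δ).2 ⟨hlim δ hx, rfl⟩
      rw [hxy', h_inf] at h1
      exact absurd rfl h1
    · have h1 := (h_iso_inl D g β₂ η η).2 rfl
      rw [← hxy', h_lim_inl] at h1
      exact absurd rfl h1
    · have h1 := (h_lim_inr D g β₂ δ δ).2 ⟨hlim δ hx, rfl⟩
      rw [hxy'] at h1
      rw [((h_lim_inr D g β₂ γ δ).1 h1).2]
  have hcomp : CompactSpace (closure A) := isCompact_iff_compactSpace.1 isClosed_closure.isCompact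
  exact ⟨α ⊕ D.S, fun x => D.h g β₂ x, (hcont.isClosedEmbedding hinj).isEmbedding,
    fun y => ⟨fun γ => h_values D g β₂ y γ, h_support D hg2 y⟩⟩

end Pool.Agent.Lib_helper89.Corson
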