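import Pool.Agent.Lib_helper89.Corson.Main

/-!
# Jensen's square gives a non reflecting stationary set (MP_1c9258_gt)
-/

namespace Pool.Agent.Lib_helper89.Corson

open Set Order Cardinal Filter Topology
open scoped Ordinal

/-- `x` is a limit point of the order. -/
def IsLim {α : Type} [LinearOrder α] (x : α) : Prop :=
  (Iio x).Nonempty ∧ ∀ y < x, ∃ z < x, y < z

/-- `x` is a limit point of the set `C`. -/
def IsLimOf {α : Type} [LinearOrder α] (C : Set α) (x : α) : Prop :=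
  (Iio x).Nonempty ∧ ∀ y < x, ∃ c ∈ C, y < c ∧ c < x

/-- Jensen's principle `□_μ`, for a well order `α` of type `μ⁺`: a coherent sequence of closed
unbounded subsets of the limit points, of order type at most `μ`. -/
def Square (α : Type) [LinearOrder α] [WellFoundedLT α] (μ : Cardinal.{0}) : Prop :=
  ∃ C : α → Set α, ∀ δ : α, IsLim δ →
    C δ ⊆ Iio δ ∧ IsLimOf (C δ) δ ∧ (∀ x < δ, IsLimOf (C δ) x → x ∈ C δ) ∧
    typeLT (C δ) ≤ μ.ord ∧ ∀ γ < δ, IsLimOf (C δ) γ → C γ = C δ ∩ Iio γ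

variable {α : Type} [LinearOrder α] [WellFoundedLT α]

theorem lub_limit {β : α} (hβ : ℵ₀ < cof (Iio β)) (C : Set α)
    (hC : IsLimOf C β) (x : α) (hx : x < β) : ∃ y < β, x < y ∧ IsLimOf C y := by
  have h1 : ∀ z : Iio β, ∃ c : Iio β, (c : α) ∈ C ∧ z < c := by
    rintro ⟨z, hz⟩
    obtain ⟨c, hc, hzc, hcβ⟩ := hC.2 z hz
    exact ⟨⟨c, hcβ⟩, hc, hzc⟩
  choose s hs1 hs2 using h1
  let f : ℕ → Iio β := fun n => s^[n + 1] ⟨x, hx⟩
  have hf : ∀ n, f (n + 1) = s (f n) := fun n => Function.iterate_succ_apply' s (n + 1) _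
  have hfC : ∀ n, (f n : α) ∈ C := by
    intro n
    show ((s^[n + 1] ⟨x, hx⟩ : Iio β) : α) ∈ C
    rw [Function.iterate_succ_apply']
    exact hs1 _
  have hflt : ∀ n, f n < f (n + 1) := by
    intro n
    rw [hf]
    exact hs2 _
  have hnc : ¬ IsCofinal (range f) := by
    intro h
    have h2 := cof_le h
    have h3 : #(range f) ≤ ℵ₀ := by
      rw [Cardinal.mk_le_aleph0_iff]
      exact (countable_range f).to_subtype
    exact absurd hβ (not_lt.2 (h2.trans h3))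
  obtain ⟨u, hu⟩ := not_isCofinal_iff.1 hnc
  obtain ⟨y, hy⟩ := exists_lub (s := range fun n => (f n : α)) ⟨u, by
    rintro _ ⟨n, rfl⟩
    exact (hu (f n) (mem_range_self n)).le⟩
  have hyu : y ≤ u := hy.2 (by
    rintro _ ⟨n, rfl⟩
    exact (hu (f n) (mem_range_self n)).le)
  have hxy : x < y := by
    have h2 : (⟨x, hx⟩ : Iio β) < f 0 := hs2 _
    exact lt_of_lt_of_le h2 (hy.1 ⟨0, rfl⟩)
  refine ⟨y, hyu.trans_lt u.2, hxy, ⟨x, hxy⟩, ?_⟩
  intro z hz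
  obtain ⟨_, ⟨n, rfl⟩, hn⟩ := (lt_isLUB_iff hy).1 hz
  exact ⟨f n, hfC n, hn, lt_of_lt_of_le (show (f n : α) < f (n + 1) from hflt n) (hy.1 ⟨n + 1, rfl⟩)⟩

omit [WellFoundedLT α] in
theorem isLimOf_lub {C d : Set α} (hd : ∀ c ∈ d, IsLimOf C c) (hne : d.Nonempty) {a : α}
    (ha : IsLUB d a) : IsLimOf C a := by
  obtain ⟨c, hc⟩ := hne
  obtain ⟨z, hz⟩ := (hd c hc).1
  refine ⟨⟨z, lt_of_lt_of_le hz (ha.1 hc)⟩, fun y hy => ?_⟩
  obtain ⟨c', hc', hyc'⟩ := (lt_isLUB_iff ha).1 hy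
  obtain ⟨w, hw, hyw, hwc⟩ := (hd c' hc').2 y hyc'
  exact ⟨w, hw, hyw, hwc.trans_le (ha.1 hc')⟩

/-- A set which contains at most one limit point of a set `C` unbounded in `β` does not reflect
at `β`. -/
theorem not_reflect {β : α} (hβ : ℵ₀ < cof (Iio β)) {C S : Set α} (hC : IsLimOf C β)
    (hS : ∀ γ ∈ S, ∀ γ' ∈ S, γ < γ' → γ' < β → IsLimOf C γ → IsLimOf C γ' → False) :
    ¬ IsStationary (Subtype.val ⁻¹' S : Set (Iio β)) := by
  rw [not_isStationary_iff]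
  have hclub : ∀ a : α, a < β → IsClub {γ : Iio β | IsLimOf C γ ∧ a < γ} := by
    intro a haβ
    constructor
    · intro d hd hne _ b hb
      have h1 : IsLUB (Subtype.val '' d) (b : α) := by
        constructor
        · rintro _ ⟨c, hc, rfl⟩
          exact hb.1 hc
        · intro u hu
          rcases lt_or_ge u β with h | h
          · have h2 : b ≤ ⟨u, h⟩ := hb.2 fun c hc => hu ⟨c, hc, rfl⟩
            exact h2
          · exact b.2.le.trans h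
      refine ⟨isLimOf_lub (d := Subtype.val '' d) ?_ (hne.image _) h1, ?_⟩
      · rintro _ ⟨c, hc, rfl⟩
        exact (hd hc).1
      · obtain ⟨c, hc⟩ := hne
        exact lt_of_lt_of_le (hd hc).2 (hb.1 hc)
    · intro x
      obtain ⟨y, hyβ, hxy, hy⟩ := lub_limit hβ C hC (max a x) (max_lt haβ x.2)
      exact ⟨⟨y, hyβ⟩, ⟨hy, (le_max_left _ _).trans_lt hxy⟩, ((le_max_right _ _).trans_lt hxy).le⟩
  by_cases hex : ∃ γ₀ ∈ S, γ₀ < β ∧ IsLimOf C γ₀
  · obtain ⟨γ₀, hγ₀, hγ₀β, hγ₀C⟩ := hex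
    refine ⟨_, hclub γ₀ hγ₀β, ?_⟩
    rw [Set.disjoint_left]
    rintro γ hγS ⟨hγ, hγ'⟩
    exact hS γ₀ hγ₀ γ hγS hγ' γ.2 hγ₀C hγ
  · push Not at hex
    obtain ⟨x, hx⟩ := hC.1
    refine ⟨_, hclub x hx, ?_⟩
    rw [Set.disjoint_left]
    rintro γ hγS ⟨hγ, _⟩
    exact hex γ hγS γ.2 hγ

omit [WellFoundedLT α] in
theorem cof_of_seq {y : α} (f : ℕ → α) (hf : ∀ n, f n < f (n + 1)) (hy : IsLUB (range f) y) :
    cof (Iio y) = ℵ₀ := by
  have hlt : ∀ n, f n < y := fun n => (hf n).trans_le (hy.1 ⟨n + 1, rfl⟩)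
  have h0 : Nonempty (Iio y) := ⟨⟨f 0, hlt 0⟩⟩
  have hcof : ∀ x < y, ∃ n, x < f n := by
    intro x hx
    obtain ⟨_, ⟨n, rfl⟩, hn⟩ := (lt_isLUB_iff hy).1 hx
    exact ⟨n, hn⟩
  have h1 : NoMaxOrder (Iio y) := ⟨fun x => by
    obtain ⟨n, hn⟩ := hcof x x.2
    exact ⟨⟨f n, hlt n⟩, hn⟩⟩
  refine le_antisymm ?_ aleph0_le_cof
  have h2 : IsCofinal (range fun n => (⟨f n, hlt n⟩ : Iio y)) := by
    intro x
    obtain ⟨n, hn⟩ := hcof x x.2
    exact ⟨_, mem_range_self n, (show x < (⟨f n, hlt n⟩ : Iio y) from hn).le⟩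
  refine (cof_le h2).trans ?_
  rw [Cardinal.mk_le_aleph0_iff]
  exact (countable_range _).to_subtype

variable [IsRegularCardinalOrder α]

/-- The points of cofinality `ω` form a stationary set. -/
theorem stationary_cof_aleph0 (hα : ℵ₀ < #α) : IsStationary {δ : α | cof (Iio δ) = ℵ₀} := by
  intro t ht
  have hup : ∀ x : α, ∃ y ∈ t, x < y := by
    intro x
    obtain ⟨b, hb⟩ := bdd_of_card (s := ({x} : Set α)) (by
      rw [Cardinal.mk_singleton]
      exact one_lt_aleph0.trans hα)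
    obtain ⟨y, hy, hby⟩ := ht.isCofinal b
    exact ⟨y, hy, (hb x rfl).trans_le hby⟩
  choose s hs1 hs2 using hup
  have hne : Nonempty α := by
    rw [← Cardinal.mk_ne_zero_iff]
    exact (Cardinal.aleph0_pos.trans hα).ne'
  obtain ⟨a₀⟩ := hne
  let f : ℕ → α := fun n => s^[n + 1] a₀
  have hf : ∀ n, f n < f (n + 1) := by
    intro n
    show s^[n + 1] a₀ < s^[n + 1 + 1] a₀
    rw [Function.iterate_succ_apply' s (n + 1)]
    exact hs2 _
  have hft : ∀ n, f n ∈ t := by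
    intro n
    show s^[n + 1] a₀ ∈ t
    rw [Function.iterate_succ_apply' s n]
    exact hs1 _
  obtain ⟨u, hu⟩ := bdd_of_card (s := range f) (lt_of_le_of_lt (by
    rw [Cardinal.mk_le_aleph0_iff]
    exact (countable_range f).to_subtype) hα)
  obtain ⟨y, hy⟩ := exists_lub (s := range f) ⟨u, fun z hz => (hu z hz).le⟩
  refine ⟨y, cof_of_seq f hf hy, ?_⟩
  refine ht.dirSupClosed (d := range f) ?_ ⟨_, mem_range_self 0⟩ ?_ hy
  · rintro _ ⟨n, rfl⟩
    exact hft n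
  · have hm : Monotone f := monotone_nat_of_le_succ fun n => (hf n).le
    rintro _ ⟨n, rfl⟩ _ ⟨m, rfl⟩
    exact ⟨f (max n m), mem_range_self _, hm (le_max_left _ _), hm (le_max_right _ _)⟩

/-- Jensen: `□_μ` gives a non reflecting stationary set of points of cofinality `ω` of `μ⁺`. -/
theorem square_nonreflecting {μ : Cardinal.{0}} (hμ : ℵ₀ ≤ μ) (hα : #α = Order.succ μ)
    (hsq : Square α μ) : ∃ S : Set α, IsStationary S ∧ (∀ δ ∈ S, cof (Iio δ) = ℵ₀) ∧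
      ∀ β : α, ℵ₀ < cof (Iio β) → ¬ IsStationary (Subtype.val ⁻¹' S : Set (Iio β)) := by
  obtain ⟨C, hC⟩ := hsq
  have hα' : ℵ₀ < #α := by
    rw [hα]
    exact hμ.trans_lt (Order.lt_succ μ)
  have hlim : ∀ δ : α, ℵ₀ ≤ cof (Iio δ) → IsLim δ := by
    intro δ hδ
    have h0 : Nonempty (Iio δ) := by
      rw [← cof_ne_zero_iff]
      exact (Cardinal.aleph0_pos.trans_le hδ).ne'
    refine ⟨⟨h0.some.1, h0.some.2⟩, ?_⟩
    intro x hx
    by_contra hcon
    push Not at hcon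
    have h1 : cof (Iio δ) = 1 := cof_eq_one_iff.2 ⟨⟨x, hx⟩, fun y => hcon y y.2⟩
    rw [h1] at hδ
    exact absurd hδ (not_le.2 one_lt_aleph0)
  let E : Ordinal.{0} → Set α := fun η => {δ | cof (Iio δ) = ℵ₀ ∧ typeLT (C δ) = η}
  have hun : {δ : α | cof (Iio δ) = ℵ₀} = ⋃ η : Iic μ.ord, E η := by
    ext δ
    simp only [Set.mem_ofPred_eq, mem_iUnion]
    constructor
    · intro h
      exact ⟨⟨typeLT (C δ), (hC δ (hlim δ h.ge)).2.2.2.1⟩, h, rfl⟩
    · rintro ⟨η, h, _⟩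
      exact h
  have hst := stationary_cof_aleph0 hα'
  rw [hun, isStationary_iUnion_iff] at hst
  · obtain ⟨η, hη⟩ := hst
    refine ⟨E η, hη, fun δ hδ => hδ.1, fun β hβ => ?_⟩
    have hCβ := hC β (hlim β hβ.le)
    refine not_reflect hβ hCβ.2.1 ?_
    intro γ hγ γ' hγ' hlt hγ'β h1 h2
    have h3 : C γ = C β ∩ Iio γ := hCβ.2.2.2.2 γ (hlt.trans hγ'β) h1
    have h4 : C γ' = C β ∩ Iio γ' := hCβ.2.2.2.2 γ' hγ'β h2
    obtain ⟨c, hc, hγc, hcγ'⟩ := h2.2 γ hlt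
    have h5 : typeLT (C γ) < typeLT (C γ') := by
      have hc4 : c ∈ C γ' := by
        rw [h4]
        exact ⟨hc, hcγ'⟩
      refine lt_of_le_of_lt ?_ (Ordinal.typein_lt_type (α := C γ') (· < ·) ⟨c, hc4⟩)
      rw [← Ordinal.type_subrel]
      have hmem : ∀ x : C γ, x.1 ∈ C γ' ∧ x.1 < c := by
        rintro ⟨x, hx⟩
        rw [h3] at hx
        show x ∈ C γ' ∧ x < c
        rw [h4]
        exact ⟨⟨hx.1, lt_trans hx.2 hlt⟩, lt_trans hx.2 hγc⟩
      refine RelEmbedding.ordinal_type_le ⟨⟨fun x => ⟨⟨x.1, (hmem x).1⟩, (hmem x).2⟩, ?_⟩, ?_⟩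
      · intro x y hxy
        have h6 := congrArg (fun z => z.1.1) hxy
        exact Subtype.ext h6
      · intro x y
        exact Iff.rfl
    rw [hγ.2, hγ'.2] at h5
    exact lt_irrefl _ h5
  · rw [cof_eq_cardinalMk, hα]
    exact (hμ.trans_lt (Order.lt_succ μ)).ne'
  · rw [cof_eq_cardinalMk, hα]
    have h1 : Iic μ.ord = Iio (μ.ord + 1) := by
      ext x
      simp
    rw [h1, Cardinal.mk_Iio_ordinal, Ordinal.card_add_one, Cardinal.card_ord, Cardinal.lift_lift,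
      Cardinal.lift_lt, Cardinal.add_one_eq hμ]
    exact Order.lt_succ μ

end Pool.Agent.Lib_helper89.Corson
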