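import Pool.Agent.Lib_helper89.Corson.Space

/-!
# Pressing down; the ladder system compactum of a stationary set is not Corson (MP_1c9258_gt)
-/

namespace Pool.Agent.Lib_helper89.Corson

open Set Order Cardinal Filter Topology

variable {α : Type} [LinearOrder α] [WellFoundedLT α] [IsRegularCardinalOrder α]

theorem bdd_of_card {s : Set α} (h : #s < #α) : ∃ a : α, ∀ x ∈ s, x < a := by
  have h1 : ¬ IsCofinal s := by
    intro hs
    have := cof_le hs
    rw [cof_eq_cardinalMk] at this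
    exact absurd h (not_lt.2 this)
  exact not_isCofinal_iff.1 h1

omit [IsRegularCardinalOrder α] in
theorem exists_lub {s : Set α} (h : (upperBounds s).Nonempty) : ∃ a, IsLUB s a := by
  obtain ⟨y, hy, hy'⟩ := WellFounded.has_min (wellFounded_lt (α := α)) (upperBounds s) h
  exact ⟨y, hy, fun z hz => not_lt.1 (hy' z hz)⟩

theorem mk_Iio_lt' (a : α) : #(Iio a) < #α :=
  Cardinal.mk_Iio_lt a ord_cardinalMk

/-- A weak form of Fodor's pressing down lemma. -/
theorem fodor (hα : ℵ₀ < #α) {S : Set α} (hS : IsStationary S) (g : α → α)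
    (hg : ∀ δ ∈ S, g δ < δ) : ∃ ξ, ¬ (S ∩ g ⁻¹' {ξ}).Countable := by
  by_contra hcon
  push Not at hcon
  have hb : ∀ ξ, ∃ a : α, ∀ x ∈ S ∩ g ⁻¹' {ξ}, x < a := fun ξ => by
    refine bdd_of_card (lt_of_le_of_lt ?_ hα)
    rw [Cardinal.mk_le_aleph0_iff]
    exact (hcon ξ).to_subtype
  choose h hh using hb
  have hclub : IsClub {δ : α | ∀ ξ < δ, h ξ ≤ δ} := by
    constructor
    · intro d hd hne _ a ha ξ hξ
      obtain ⟨c, hc, hξc⟩ := (lt_isLUB_iff ha).1 hξ
      exact (hd hc ξ hξc).trans (ha.1 hc)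
    · intro x
      have hstep : ∀ y : α, ∃ z, y < z ∧ ∀ ξ < y, h ξ < z := by
        intro y
        have h1 : #((h '' Iio y) : Set α) < #α := (Cardinal.mk_image_le).trans_lt (mk_Iio_lt' y)
        obtain ⟨a, ha⟩ := bdd_of_card h1
        obtain ⟨b, hb⟩ := bdd_of_card (s := ({y} : Set α)) (by
          rw [Cardinal.mk_singleton]
          exact one_lt_aleph0.trans hα)
        refine ⟨max a b, lt_max_of_lt_right (hb y rfl), fun ξ hξ => lt_max_of_lt_left ?_⟩
        exact ha _ (mem_image_of_mem h hξ)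
      choose st hst1 hst2 using hstep
      let f : ℕ → α := fun n => st^[n] x
      have hf : ∀ n, f (n + 1) = st (f n) := fun n => Function.iterate_succ_apply' st n x
      obtain ⟨u, hu⟩ := bdd_of_card (s := range f) (lt_of_le_of_lt (by
        rw [Cardinal.mk_le_aleph0_iff]
        exact (countable_range f).to_subtype) hα)
      obtain ⟨y, hy⟩ := exists_lub (s := range f) ⟨u, fun z hz => (hu z hz).le⟩
      refine ⟨y, ?_, hy.1 ⟨0, rfl⟩⟩
      intro ξ hξ
      obtain ⟨_, ⟨n, rfl⟩, hn⟩ := (lt_isLUB_iff hy).1 hξ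
      refine (hst2 (f n) ξ hn).le.trans ?_
      rw [← hf]
      exact hy.1 ⟨n + 1, rfl⟩
  obtain ⟨δ, hδS, hδ⟩ := hS hclub
  have h1 := hg δ hδS
  have h2 := hh (g δ) δ ⟨hδS, rfl⟩
  exact absurd h2 (not_lt.2 (hδ (g δ) h1))

/-- The compactum of a ladder system on a stationary set is not Corson. -/
theorem not_corson (D : Data α) (hα : ℵ₀ < #α) (hS : IsStationary D.S) :
    ¬ ∃ (Γ : Type) (f : D.X → (Γ → ℝ)),
      Topology.IsEmbedding f ∧ ∀ x, (Function.support (f x)).Countable := by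
  classical
  rintro ⟨Γ, f, hf, hsupp⟩
  have hne : ∀ δ : D.S, ∃ γ, f (D.lim δ) γ ≠ f D.inf γ := by
    intro δ
    by_contra hcon
    push Not at hcon
    have h1 : D.lim δ = D.inf := hf.injective (funext hcon)
    have h2 := (e_lim_inr D δ δ).2 rfl
    rw [h1] at h2
    simp at h2
  choose γ hγ using hne
  have hξ : ∀ δ : D.S, ∃ ξ : α, ξ < δ ∧ f (D.iso ξ) (γ δ) ≠ f D.inf (γ δ) := by
    intro δ
    have h1 : Tendsto (fun n => f (D.iso (D.L δ n)) (γ δ)) atTop (𝓝 (f (D.lim δ) (γ δ))) :=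
      ((continuous_apply (γ δ)).tendsto _).comp ((hf.continuous.tendsto _).comp (tendsto_iso D δ))
    have h2 : ∀ᶠ n in atTop, f (D.iso (D.L δ n)) (γ δ) ≠ f D.inf (γ δ) :=
      h1.eventually_ne (hγ δ)
    obtain ⟨n, hn⟩ := h2.exists
    exact ⟨D.L δ n, (D.isLadder δ δ.2).2.1 n, hn⟩
  choose ξ hξ1 hξ2 using hξ
  obtain ⟨ξ₀, hξ₀⟩ := fodor hα hS (fun δ => if h : δ ∈ D.S then ξ ⟨δ, h⟩ else δ) (by
    intro δ hδ
    simp only [dif_pos hδ]
    exact hξ1 ⟨δ, hδ⟩)
  refine hξ₀ ?_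
  -- the coordinates used are in a countable set
  have hG : (Function.support (f (D.iso ξ₀)) ∪ Function.support (f D.inf)).Countable :=
    (hsupp _).union (hsupp _)
  have hfib : ∀ c : Γ, {δ : D.S | f (D.lim δ) c ≠ f D.inf c}.Countable := by
    intro c
    have h1 : Tendsto (fun δ : D.S => f (D.lim δ) c) cofinite (𝓝 (f D.inf c)) :=
      ((continuous_apply c).tendsto _).comp ((hf.continuous.tendsto _).comp (tendsto_lim D))
    have h2 : ∀ n : ℕ, {δ : D.S | (1 : ℝ) / (n + 1) ≤ dist (f (D.lim δ) c) (f D.inf c)}.Finite := by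
      intro n
      have h3 := h1.eventually (Metric.ball_mem_nhds (f D.inf c)
        (by positivity : (0 : ℝ) < 1 / ((n : ℝ) + 1)))
      rw [eventually_cofinite] at h3
      refine h3.subset fun δ hδ => ?_
      simp only [not_lt, Set.mem_ofPred_eq] at hδ ⊢
      exact hδ
    refine (countable_iUnion fun n => (h2 n).countable).mono ?_
    intro δ hδ
    have h3 : 0 < dist (f (D.lim δ) c) (f D.inf c) := dist_pos.2 hδ
    obtain ⟨n, hn⟩ := exists_nat_one_div_lt h3
    exact mem_iUnion.2 ⟨n, hn.le⟩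
  have h4 : {δ : D.S | ξ δ = ξ₀}.Countable := by
    refine (hG.biUnion fun c _ => hfib c).mono ?_
    intro δ hδ
    rw [mem_iUnion₂]
    refine ⟨γ δ, ?_, hγ δ⟩
    have h5 := hξ2 δ
    rw [show ξ δ = ξ₀ from hδ] at h5
    by_contra hcon
    rw [mem_union, not_or, Function.notMem_support, Function.notMem_support] at hcon
    exact h5 (hcon.1.trans hcon.2.symm)
  refine (h4.image Subtype.val).mono ?_
  rintro δ ⟨hδS, hδ⟩
  simp only [mem_preimage, dif_pos hδS, mem_singleton_iff] at hδ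
  exact ⟨⟨δ, hδS⟩, hδ, rfl⟩

end Pool.Agent.Lib_helper89.Corson
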