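import Mathlib

/-!
# Ladder systems on non reflecting sets (MP_1c9258_gt)
-/

namespace Pool.Agent.Lib_helper89.Corson

open Set Order Cardinal

variable {α : Type} [LinearOrder α] [WellFoundedLT α]

/-- `L` is a ladder system on `S`. -/
def IsLadder (S : Set α) (L : α → ℕ → α) : Prop :=
  ∀ δ ∈ S, StrictMono (L δ) ∧ (∀ n, L δ n < δ) ∧ ∀ x < δ, ∃ n, x < L δ n

omit [WellFoundedLT α] in
/-- Existence of a ladder. -/
theorem exists_ladder {δ : α} (h : cof (Iio δ) = ℵ₀) :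
    ∃ f : ℕ → α, StrictMono f ∧ (∀ n, f n < δ) ∧ ∀ x < δ, ∃ n, x < f n := by
  obtain ⟨s, hs, hsc⟩ := exists_cof_eq (α := Iio δ)
  rw [h] at hsc
  have hinf : Infinite s := by
    rw [Cardinal.infinite_iff, hsc]
  have hcnt : Countable s := by
    rw [← Cardinal.mk_le_aleph0_iff, hsc]
  obtain ⟨e⟩ : Nonempty (ℕ ≃ s) := by
    rw [← Cardinal.lift_mk_eq']
    simp
  have hne : Nonempty (Iio δ) := ⟨(e 0).1⟩
  have hmax : ∀ x : Iio δ, ∃ y : Iio δ, x < y := by
    intro x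
    by_contra hcon
    push Not at hcon
    have h1 : cof (Iio δ) = 1 := cof_eq_one_iff.2 ⟨x, hcon⟩
    rw [h] at h1
    exact (Cardinal.one_lt_aleph0).ne' h1
  choose nx hnx using hmax
  let f : ℕ → Iio δ := fun n => Nat.rec (nx (e 0).1) (fun n y => nx (max y (e (n + 1)).1)) n
  have hf : ∀ n, f n < f (n + 1) := fun n => (le_max_left _ _).trans_lt (hnx _)
  have hf' : ∀ n, (e n).1 < f n := by
    intro n
    cases n with
    | zero => exact hnx _
    | succ n => exact (le_max_right _ _).trans_lt (hnx _)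
  refine ⟨fun n => (f n).1, strictMono_nat_of_lt_succ fun n => hf n, fun n => (f n).2, ?_⟩
  intro x hx
  obtain ⟨y, hy, hxy⟩ := hs ⟨x, hx⟩
  obtain ⟨n, hn⟩ := e.surjective ⟨y, hy⟩
  refine ⟨n, ?_⟩
  have h1 := hf' n
  rw [hn] at h1
  exact (show x ≤ y.1 from hxy).trans_lt h1

omit [WellFoundedLT α] in
/-- The part of a ladder below a smaller point is finite. -/
theorem ladder_finite {S : Set α} {L : α → ℕ → α} (hL : IsLadder S L) {δ γ : α} (hδ : δ ∈ S)
    (hγ : γ < δ) : (range (L δ) ∩ Iic γ).Finite := by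
  obtain ⟨hmono, hlt, hcof⟩ := hL δ hδ
  obtain ⟨m, hm⟩ := hcof γ hγ
  refine ((finite_lt_nat m).image (L δ)).subset ?_
  rintro x ⟨⟨n, rfl⟩, hn⟩
  exact ⟨n, hmono.lt_iff_lt.1 (lt_of_le_of_lt hn hm), rfl⟩

omit [WellFoundedLT α] in
theorem ladder_bound {S : Set α} {L : α → ℕ → α} (hL : IsLadder S L) {δ γ : α} (hδ : δ ∈ S)
    (hγ : γ ∈ S) (hγδ : γ < δ) : ∃ b < γ, ∀ ξ ∈ range (L δ), ξ < γ → ξ ≤ b := by
  have hfin : (range (L δ) ∩ Iio γ).Finite :=
    (ladder_finite hL hδ hγδ).subset (inter_subset_inter_right _ Iio_subset_Iic_self)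
  rcases (range (L δ) ∩ Iio γ).eq_empty_or_nonempty with he | hne
  · refine ⟨L γ 0, (hL γ hγ).2.1 0, fun ξ hξ hξγ => ?_⟩
    have : ξ ∈ range (L δ) ∩ Iio γ := ⟨hξ, hξγ⟩
    rw [he] at this
    exact this.elim
  · obtain ⟨b, hb, hb'⟩ := hfin.exists_maximal hne
    refine ⟨b, hb.2, fun ξ hξ hξγ => ?_⟩
    rcases le_total ξ b with h | h
    · exact h
    · exact hb' ⟨hξ, hξγ⟩ h

/-- The ladders on `T` can be made disjoint by removing initial segments. -/
def Free (L : α → ℕ → α) (T : Set α) : Prop :=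
  ∃ g : α → α, (∀ δ ∈ T, g δ < δ) ∧ ∀ δ ∈ T, ∀ δ' ∈ T, δ < δ' →
    ∀ ξ ∈ range (L δ), ξ ∈ range (L δ') → g δ < ξ → g δ' < ξ → False

/-- Below `β` there is a closed unbounded set disjoint from `S`. -/
def Thin (S : Set α) (β : α) : Prop :=
  ∃ C : Set α, (∀ c ∈ C, c < β) ∧ (∀ x < β, ∃ c ∈ C, x < c) ∧ Disjoint C S ∧
    ∀ x < β, (C ∩ Iio x).Nonempty → ∀ y, IsLUB (C ∩ Iio x) y → y ∈ C

theorem free_of_thin {S : Set α} {L : α → ℕ → α} (hL : IsLadder S L)
    (hthin : ∀ β : α, (∀ x < β, ∃ y < β, x < y) → (Iio β).Nonempty → Thin S β) :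
    ∀ β : α, Free L (S ∩ Iio β) := by
  classical
  intro β
  induction β using WellFoundedLT.induction with
  | ind β ih =>
    rcases (Iio β).eq_empty_or_nonempty with he | hne
    · refine ⟨id, ?_, ?_⟩
      · rintro δ ⟨_, hδ⟩
        rw [he] at hδ
        exact hδ.elim
      · rintro δ ⟨_, hδ⟩
        rw [he] at hδ
        exact hδ.elim
    by_cases hlim : ∀ x < β, ∃ y < β, x < y
    · obtain ⟨C, hCβ, hCunb, hCS, hCcl⟩ := hthin β hlim hne
      choose! g hg1 hg2 using ih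
      have hd : ∀ δ, δ < β → ∃ d, d ∈ C ∧ δ < d ∧ ∀ c ∈ C, δ < c → d ≤ c := by
        intro δ hδ
        obtain ⟨c, hc, hδc⟩ := hCunb δ hδ
        obtain ⟨d, hd, hd'⟩ := WellFounded.has_min (wellFounded_lt (α := α)) {c | c ∈ C ∧ δ < c}
          ⟨c, hc, hδc⟩
        exact ⟨d, hd.1, hd.2, fun c hc hδc => not_lt.1 (hd' c ⟨hc, hδc⟩)⟩
      choose! d hdC hdlt hdmin using hd
      have hc : ∀ δ, δ ∈ S ∩ Iio β → ∃ c < δ, ∀ x ∈ C, x < δ → x ≤ c := by
        rintro δ ⟨hδS, hδβ⟩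
        rcases (C ∩ Iio δ).eq_empty_or_nonempty with he' | hne'
        · refine ⟨L δ 0, (hL δ hδS).2.1 0, fun x hx hxδ => ?_⟩
          have : x ∈ C ∩ Iio δ := ⟨hx, hxδ⟩
          rw [he'] at this
          exact this.elim
        · obtain ⟨y, hy, hy'⟩ := WellFounded.has_min (wellFounded_lt (α := α))
            (upperBounds (C ∩ Iio δ)) ⟨δ, fun x hx => hx.2.le⟩
          have hlub : IsLUB (C ∩ Iio δ) y := ⟨hy, fun z hz => not_lt.1 (hy' z hz)⟩
          have hyC := hCcl δ hδβ hne' y hlub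
          have hyδ : y ≤ δ := hlub.2 fun x hx => hx.2.le
          have hyne : y ≠ δ := by
            rintro rfl
            exact (Set.disjoint_left.1 hCS) hyC hδS
          exact ⟨y, lt_of_le_of_ne hyδ hyne, fun x hx hxδ => hy ⟨hx, hxδ⟩⟩
      choose! c hcδ hcC using hc
      refine ⟨fun δ => max (g (d δ) δ) (c δ), ?_, ?_⟩
      · rintro δ ⟨hδS, hδβ⟩
        exact max_lt (hg1 (d δ) (hCβ _ (hdC δ hδβ)) δ ⟨hδS, hdlt δ hδβ⟩) (hcδ δ ⟨hδS, hδβ⟩)
      · rintro δ ⟨hδS, hδβ⟩ δ' ⟨hδ'S, hδ'β⟩ hδδ' ξ hξ hξ' h1 h2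
        beta_reduce at h1 h2
        rcases lt_or_ge δ' (d δ) with h3 | h3
        · have h4 : d δ = d δ' := by
            refine le_antisymm (hdmin δ hδβ _ (hdC δ' hδ'β) (hδδ'.trans (hdlt δ' hδ'β))) ?_
            exact hdmin δ' hδ'β _ (hdC δ hδβ) h3
          rw [← h4] at h2
          exact hg2 (d δ) (hCβ _ (hdC δ hδβ)) δ ⟨hδS, hdlt δ hδβ⟩ δ' ⟨hδ'S, h3⟩ hδδ' ξ hξ hξ'
            ((le_max_left _ _).trans_lt h1) ((le_max_left _ _).trans_lt h2)
        · have h4 : d δ < δ' := by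
            refine lt_of_le_of_ne h3 ?_
            intro h5
            exact (Set.disjoint_left.1 hCS) (hdC δ hδβ) (h5 ▸ hδ'S)
          have h5 := hcC δ' ⟨hδ'S, hδ'β⟩ (d δ) (hdC δ hδβ) h4
          obtain ⟨n, rfl⟩ := hξ
          have h6 : L δ n < δ := (hL δ hδS).2.1 n
          have h7 : c δ' < L δ n := (le_max_right _ _).trans_lt h2
          exact lt_asymm h7 (h6.trans ((hdlt δ hδβ).trans_le h5))
    · push Not at hlim
      obtain ⟨β', hβ', hmax⟩ := hlim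
      obtain ⟨g, hg1, hg2⟩ := ih β' hβ'
      by_cases hβS : β' ∈ S
      · have hb : ∀ γ, γ ∈ S ∩ Iio β' → ∃ b < γ, ∀ ξ ∈ range (L β'), ξ < γ → ξ ≤ b :=
          fun γ hγ => ladder_bound hL hβS hγ.1 hγ.2
        choose! b hb1 hb2 using hb
        refine ⟨fun δ => if δ < β' then max (g δ) (b δ) else L β' 0, ?_, ?_⟩
        · rintro δ ⟨hδS, hδβ⟩
          by_cases h : δ < β'
          · simp only [if_pos h]
            exact max_lt (hg1 δ ⟨hδS, h⟩) (hb1 δ ⟨hδS, h⟩)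
          · simp only [if_neg h]
            have : δ = β' := le_antisymm (hmax δ hδβ) (not_lt.1 h)
            rw [this]
            exact (hL β' hβS).2.1 0
        · rintro δ ⟨hδS, hδβ⟩ δ' ⟨hδ'S, hδ'β⟩ hδδ' ξ hξ hξ' h1 h2
          have h3 : δ < β' := hδδ'.trans_le (hmax δ' hδ'β)
          simp only [if_pos h3] at h1
          by_cases h : δ' < β'
          · simp only [if_pos h] at h2
            exact hg2 δ ⟨hδS, h3⟩ δ' ⟨hδ'S, h⟩ hδδ' ξ hξ hξ' ((le_max_left _ _).trans_lt h1)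
              ((le_max_left _ _).trans_lt h2)
          · have h4 : δ' = β' := le_antisymm (hmax δ' hδ'β) (not_lt.1 h)
            rw [h4] at hξ'
            have h5 : ξ < δ := by
              obtain ⟨n, rfl⟩ := hξ
              exact (hL δ hδS).2.1 n
            have h6 := hb2 δ ⟨hδS, h3⟩ ξ hξ' h5
            exact absurd ((le_max_right _ _).trans_lt h1) (not_lt.2 h6)
      · refine ⟨g, ?_, ?_⟩
        · rintro δ ⟨hδS, hδβ⟩
          refine hg1 δ ⟨hδS, lt_of_le_of_ne (hmax δ hδβ) ?_⟩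
          rintro rfl
          exact hβS hδS
        · rintro δ ⟨hδS, hδβ⟩ δ' ⟨hδ'S, hδ'β⟩ hδδ'
          have h3 : δ' < β' := by
            refine lt_of_le_of_ne (hmax δ' hδ'β) ?_
            rintro rfl
            exact hβS hδ'S
          exact hg2 δ ⟨hδS, hδδ'.trans h3⟩ δ' ⟨hδ'S, h3⟩ hδδ'

end Pool.Agent.Lib_helper89.Corson
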