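import Pool.Agent.Lib_helper89.Corson.Ladder

/-!
# The ladder system compactum (MP_1c9258_gt)
-/

namespace Pool.Agent.Lib_helper89.Corson

open Set Order Cardinal Filter Topology

variable {α : Type} [LinearOrder α]

/-- Points of the ladder system space: the point at infinity, isolated points, limit points. -/
inductive Pt (α : Type) (S : Set α) : Type
  | inf : Pt α S
  | iso : α → Pt α S
  | lim : S → Pt α S

/-- Parameters. -/
structure Data (α : Type) [LinearOrder α] where
  /-- the set -/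
  S : Set α
  /-- the ladder -/
  L : α → ℕ → α
  isLadder : IsLadder S L

/-- The underlying type of the space. -/
def Data.X (D : Data α) : Type := Pt α D.S

/-- The point at infinity. -/
def Data.inf (D : Data α) : D.X := Pt.inf

/-- The isolated points. -/
def Data.iso (D : Data α) (ξ : α) : D.X := Pt.iso ξ

/-- The limit points. -/
def Data.lim (D : Data α) (δ : D.S) : D.X := Pt.lim δ

open scoped Classical in
/-- Characteristic functions of the basic clopen sets. -/
noncomputable def Data.e (D : Data α) : D.X → (α ⊕ D.S → Bool)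
  | Pt.inf => fun _ => false
  | Pt.iso ξ => fun i => match i with
    | Sum.inl η => decide (η = ξ)
    | Sum.inr δ => decide (ξ ∈ range (D.L δ))
  | Pt.lim δ => fun i => match i with
    | Sum.inl _ => false
    | Sum.inr δ' => decide (δ' = δ)

noncomputable instance (D : Data α) : TopologicalSpace D.X := TopologicalSpace.induced D.e inferInstance

variable (D : Data α)

@[simp] theorem e_inf (i : α ⊕ D.S) : D.e D.inf i = false := rfl

@[simp] theorem e_iso_inl (ξ η : α) : (D.e (D.iso ξ) (Sum.inl η) = true) ↔ η = ξ := by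
  simp [Data.e, Data.iso, Data.lim]

@[simp] theorem e_iso_inr (ξ : α) (δ : D.S) :
    (D.e (D.iso ξ) (Sum.inr δ) = true) ↔ ξ ∈ range (D.L δ) := by
  simp [Data.e, Data.iso, Data.lim]

@[simp] theorem e_lim_inl (δ : D.S) (η : α) : D.e (D.lim δ) (Sum.inl η) = false := rfl

@[simp] theorem e_lim_inr (δ δ' : D.S) : (D.e (D.lim δ) (Sum.inr δ') = true) ↔ δ' = δ := by
  simp [Data.e, Data.iso, Data.lim]

theorem inter_finite {δ δ' : α} (hδ : δ ∈ D.S) (hδ' : δ' ∈ D.S) (hne : δ ≠ δ') :
    (range (D.L δ) ∩ range (D.L δ')).Finite := by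
  rcases lt_or_gt_of_ne hne with h | h
  · refine (ladder_finite D.isLadder hδ' h).subset ?_
    rintro ξ ⟨⟨n, rfl⟩, h2⟩
    exact ⟨h2, ((D.isLadder δ hδ).2.1 n).le⟩
  · refine (ladder_finite D.isLadder hδ h).subset ?_
    rintro ξ ⟨h2, ⟨n, rfl⟩⟩
    exact ⟨h2, ((D.isLadder δ' hδ').2.1 n).le⟩

theorem Data.cases {D : Data α} (x : D.X) :
    x = D.inf ∨ (∃ ξ, x = D.iso ξ) ∨ ∃ δ, x = D.lim δ := by
  rcases x with _ | ξ | δ
  · exact Or.inl rfl
  · exact Or.inr (Or.inl ⟨ξ, rfl⟩)
  · exact Or.inr (Or.inr ⟨δ, rfl⟩)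

theorem e_injective : Function.Injective D.e := by
  intro x y h
  rcases (Data.cases x) with rfl | ⟨ξ, rfl⟩ | ⟨δ, rfl⟩ <;> rcases (Data.cases y) with rfl | ⟨η, rfl⟩ | ⟨γ, rfl⟩
  · rfl
  · have := congrFun h (Sum.inl η)
    have h2 := (e_iso_inl D η η).2 rfl
    rw [← this] at h2
    simp at h2
  · have := congrFun h (Sum.inr γ)
    have h2 := (e_lim_inr D γ γ).2 rfl
    rw [← this] at h2
    simp at h2
  · have := congrFun h (Sum.inl ξ)
    have h2 := (e_iso_inl D ξ ξ).2 rfl
    rw [this] at h2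
    simp at h2
  · have := congrFun h (Sum.inl ξ)
    have h2 := (e_iso_inl D ξ ξ).2 rfl
    rw [this] at h2
    have h3 := (e_iso_inl D η ξ).1 h2
    rw [h3]
  · have := congrFun h (Sum.inl ξ)
    have h2 := (e_iso_inl D ξ ξ).2 rfl
    rw [this] at h2
    simp at h2
  · have := congrFun h (Sum.inr δ)
    have h2 := (e_lim_inr D δ δ).2 rfl
    rw [this] at h2
    simp at h2
  · have := congrFun h (Sum.inl η)
    have h2 := (e_iso_inl D η η).2 rfl
    rw [← this] at h2
    simp at h2
  · have := congrFun h (Sum.inr δ)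
    have h2 := (e_lim_inr D δ δ).2 rfl
    rw [this] at h2
    have h3 := (e_lim_inr D γ δ).1 h2
    rw [h3]

theorem isEmbedding_e : IsEmbedding D.e := ⟨⟨rfl⟩, e_injective D⟩

instance : T2Space D.X := (isEmbedding_e D).t2Space

/-- The equations of the range of `e`. -/
def Eqs (y : α ⊕ D.S → Bool) : Prop :=
  (∀ η : α, ∀ i, y (Sum.inl η) = true → y i = D.e (D.iso η) i) ∧
  (∀ δ δ' : D.S, δ ≠ δ' → y (Sum.inr δ) = true → y (Sum.inr δ') = true →
    ∃ ξ ∈ range (D.L δ) ∩ range (D.L δ'), y (Sum.inl ξ) = true)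

theorem isClosed_eqs : IsClosed {y | Eqs D y} := by
  have hc : ∀ i : α ⊕ D.S, ∀ b : Bool, IsClopen {y : α ⊕ D.S → Bool | y i = b} := by
    intro i b
    exact (isClopen_discrete {b}).preimage (continuous_apply i)
  have h1 : IsClosed {y : α ⊕ D.S → Bool | ∀ η : α, ∀ i, y (Sum.inl η) = true → y i = D.e (D.iso η) i} := by
    simp only [ofPred_forall]
    refine isClosed_iInter fun η => isClosed_iInter fun i => ?_
    have : {y : α ⊕ D.S → Bool | y (Sum.inl η) = true → y i = D.e (D.iso η) i} =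
        {y | y (Sum.inl η) = true}ᶜ ∪ {y | y i = D.e (D.iso η) i} := by
      ext y
      simp [imp_iff_not_or]
    rw [this]
    exact ((hc _ _).compl.union (hc _ _)).1
  have h2 : IsClosed {y : α ⊕ D.S → Bool | ∀ δ δ' : D.S, δ ≠ δ' → y (Sum.inr δ) = true →
      y (Sum.inr δ') = true → ∃ ξ ∈ range (D.L δ) ∩ range (D.L δ'), y (Sum.inl ξ) = true} := by
    simp only [ofPred_forall]
    refine isClosed_iInter fun δ => isClosed_iInter fun δ' => isClosed_iInter fun hne => ?_
    have h3 : {y : α ⊕ D.S → Bool | y (Sum.inr δ) = true → y (Sum.inr δ') = true →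
        ∃ ξ ∈ range (D.L δ) ∩ range (D.L δ'), y (Sum.inl ξ) = true} =
        {y | y (Sum.inr δ) = true}ᶜ ∪ ({y | y (Sum.inr δ') = true}ᶜ ∪
          ⋃ ξ ∈ range (D.L δ) ∩ range (D.L δ'), {y | y (Sum.inl ξ) = true}) := by
      ext y
      simp only [Set.mem_ofPred_eq, mem_union, mem_compl_iff, mem_iUnion, exists_prop]
      tauto
    have h4 : IsClosed {y : α ⊕ D.S → Bool | y (Sum.inr δ) = true → y (Sum.inr δ') = true →
        ∃ ξ ∈ range (D.L δ) ∩ range (D.L δ'), y (Sum.inl ξ) = true} := by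
      rw [h3]
      refine ((hc _ _).compl.1).union (((hc _ _).compl.1).union ?_)
      refine (inter_finite D δ.2 δ'.2 (fun h => hne (Subtype.ext h))).isClosed_biUnion ?_
      exact fun ξ _ => (hc _ _).1
    simpa only [ofPred_forall] using h4
  exact h1.inter h2

theorem range_e : range D.e = {y | Eqs D y} := by
  ext y
  constructor
  · rintro ⟨x, rfl⟩
    rcases (Data.cases x) with rfl | ⟨ξ, rfl⟩ | ⟨δ, rfl⟩
    · exact ⟨fun η i h => by simp at h, fun δ δ' _ h => by simp at h⟩
    · refine ⟨fun η i h => ?_, fun δ δ' _ h h' => ?_⟩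
      · rw [(e_iso_inl D ξ η).1 h]
      · exact ⟨ξ, ⟨(e_iso_inr D ξ δ).1 h, (e_iso_inr D ξ δ').1 h'⟩, (e_iso_inl D ξ ξ).2 rfl⟩
    · refine ⟨fun η i h => by simp at h, fun γ γ' hne h h' => ?_⟩
      rw [(e_lim_inr D δ γ).1 h, (e_lim_inr D δ γ').1 h'] at hne
      exact absurd rfl hne
  · rintro ⟨h1, h2⟩
    by_cases hex : ∃ η, y (Sum.inl η) = true
    · obtain ⟨η, hη⟩ := hex
      exact ⟨D.iso η, funext fun i => (h1 η i hη).symm⟩
    push Not at hex
    by_cases hex2 : ∃ δ, y (Sum.inr δ) = true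
    · obtain ⟨δ, hδ⟩ := hex2
      refine ⟨D.lim δ, funext fun i => ?_⟩
      rcases i with η | γ
      · rw [e_lim_inl]
        simpa using (hex η)
      · rw [Bool.eq_iff_iff, e_lim_inr]
        constructor
        · rintro rfl
          exact hδ
        · intro hγ
          by_contra hne
          obtain ⟨ξ, _, hξ⟩ := h2 γ δ hne hγ hδ
          exact hex ξ hξ
    · push Not at hex2
      refine ⟨D.inf, funext fun i => ?_⟩
      rcases i with η | γ
      · simpa using (hex η)
      · simpa using (hex2 γ)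

instance : CompactSpace D.X := by
  have hcl : IsClosedEmbedding D.e := ⟨isEmbedding_e D, by rw [range_e]; exact isClosed_eqs D⟩
  exact hcl.compactSpace

/-- Membership in a basic set is clopen. -/
theorem isClopen_e (i : α ⊕ D.S) : IsClopen {x : D.X | D.e x i = true} :=
  (isClopen_discrete {true}).preimage ((continuous_apply i).comp (isEmbedding_e D).continuous)

theorem tendsto_iff {β : Type*} {f : β → D.X} {l : Filter β} {x : D.X} :
    Tendsto f l (𝓝 x) ↔ ∀ i, ∀ᶠ b in l, D.e (f b) i = D.e x i := by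
  rw [(isEmbedding_e D).tendsto_nhds_iff, tendsto_pi_nhds]
  refine forall_congr' fun i => ?_
  simp only [nhds_discrete, tendsto_pure, Function.comp_apply]

theorem tendsto_iso (δ : D.S) :
    Tendsto (fun n => D.iso (D.L δ n)) atTop (𝓝 (D.lim δ)) := by
  rw [tendsto_iff]
  have hinj : Function.Injective (D.L δ) := (D.isLadder δ δ.2).1.injective
  rintro (η | γ)
  · have h1 : ∀ᶠ n in atTop, D.L δ n ≠ η := by
      have h2 : {n | D.L δ n = η}.Finite :=
        Set.Subsingleton.finite fun a ha b hb => hinj (ha.trans hb.symm)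
      exact (h2.eventually_cofinite_notMem).filter_mono (Nat.cofinite_eq_atTop ▸ le_rfl)
    filter_upwards [h1] with n hn
    rw [e_lim_inl]
    by_contra h
    rw [Bool.not_eq_false, e_iso_inl] at h
    exact hn h.symm
  · by_cases h : γ = δ
    · subst h
      filter_upwards with n
      rw [(e_lim_inr D γ γ).2 rfl, e_iso_inr]
      exact mem_range_self n
    · have h2 : {n | D.L δ n ∈ range (D.L γ)}.Finite := by
        have h3 := inter_finite D δ.2 γ.2 (fun h' => h (Subtype.ext h'.symm))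
        refine Finite.of_finite_image (h3.subset ?_) (hinj.injOn (s := _))
        rintro _ ⟨n, hn, rfl⟩
        exact ⟨mem_range_self n, hn⟩
      have h1 : ∀ᶠ n in atTop, D.L δ n ∉ range (D.L γ) :=
        (h2.eventually_cofinite_notMem).filter_mono (Nat.cofinite_eq_atTop ▸ le_rfl)
      filter_upwards [h1] with n hn
      rw [Bool.eq_iff_iff, e_iso_inr, e_lim_inr]
      exact ⟨fun h4 => absurd h4 hn, fun h4 => absurd h4 h⟩

theorem tendsto_lim : Tendsto (fun δ : D.S => D.lim δ) cofinite (𝓝 D.inf) := by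
  rw [tendsto_iff]
  rintro (η | γ)
  · filter_upwards with δ
    rw [e_lim_inl, e_inf]
  · have h1 : ∀ᶠ δ : D.S in cofinite, δ ≠ γ := (Set.finite_singleton γ).eventually_cofinite_notMem
    filter_upwards [h1] with δ hδ
    rw [e_inf]
    by_contra h
    rw [Bool.not_eq_false, e_lim_inr] at h
    exact hδ h.symm

end Pool.Agent.Lib_helper89.Corson
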